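import Pool.Agent.Lib.SmJ.E4.Use
import Pool.Agent.Lib.SmJ.E.MumfC
import Pool.Agent.Lib.SmJ.L.GenGraph
import Pool.Agent.Lib.SmJ.Sys

/-!
SMITH for Jacobians (MP_950c68_ag), part E4: isotropy of the local Kummer group of the Jacobian,
unconditional form.
-/

set_option autoImplicit false
set_option linter.unusedSectionVars false

open Polynomial Module

namespace Pool.Agent.SmJ.E4

open Pool.Agent.Lib.SmD Pool.Agent.SmithE

variable {K Om : Type} [Field K] [Field Om] [Algebra K Om] {g : ℕ}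
  {a : Fin (2 * g + 1) → Om} [HypA a]

/-- Fixed classes are given by fixed Mumford triples. -/
theorem fixPair (s φ : Om ≃ₐ[K] Om) : FixPair s φ a := by
  intro hs hφ C h1 h2
  obtain ⟨U, V, hU, hg, hV, hd, rfl⟩ := exists_red (natDegree_ff a) C
  obtain ⟨u1, v1⟩ := fixed_pair (natDegree_ff a) _ _ hU hg hV hd h1
  obtain ⟨u2, v2⟩ := fixed_pair (natDegree_ff a) _ _ hU hg hV hd h2
  obtain ⟨W, hW⟩ := hd
  exact ⟨U, V, -W, ⟨hU, hg, hV, by linear_combination -hW⟩, u1, u2, v1, v2, rfl⟩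

variable [Infinite K]

open L in
/-- The vector of a class. -/
theorem mumD_of_jac {s φ : Om ≃ₐ[K] Om} (has : ∀ i, s (a i) = a i) (haφ : ∀ i, φ (a i) = a i)
    {Q : JJ (ff a)} {x : EV g × EV g}
    (h1 : act (s : Om ≃+* Om) (map_ff _ has) Q = Q + ∑ i, (x.1.1 i).val • ee a i)
    (h2 : act (φ : Om ≃+* Om) (map_ff _ haφ) Q = Q + ∑ i, (x.2.1 i).val • ee a i) :
    MumD s φ a (fun i => (x.1.1 i, x.2.1 i)) := by
  refine mumD_of_cls has haφ (fixPair s φ) (Q := Q) ?_ h1 h2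
  apply Prod.ext
  · rw [Prod.fst_sum]
    exact x.1.2
  · rw [Prod.snd_sum]
    exact x.2.2

variable [IsSepClosed Om] {w : ValuationSubring Om}

open L in
/-- **Isotropy.** -/
theorem isot_jac (hv2 : w.valuation 2 = 1) {s φ : Om ≃ₐ[K] Om} (hs : s ∈ iner K w)
    (hφ : IsFrob K w φ) {m : ℕ} (hq : resCard (below K w) = 2 * m + 1)
    (has : ∀ i, s (a i) = a i) (haφ : ∀ i, φ (a i) = a i)
    {Q R : JJ (ff a)} {x y : EV g × EV g}
    (h1 : act (s : Om ≃+* Om) (map_ff _ has) Q = Q + ∑ i, (x.1.1 i).val • ee a i)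
    (h2 : act (φ : Om ≃+* Om) (map_ff _ haφ) Q = Q + ∑ i, (x.2.1 i).val • ee a i)
    (h3 : act (s : Om ≃+* Om) (map_ff _ has) R = R + ∑ i, (y.1.1 i).val • ee a i)
    (h4 : act (φ : Om ≃+* Om) (map_ff _ haφ) R = R + ∑ i, (y.2.1 i).val • ee a i) :
    sym (dotE g) (m : ZMod 2) x y = 0 := by
  have key : ∀ x : EV g × EV g, ∑ i, ((x.1.1 i, x.2.1 i) : ZMod 2 × ZMod 2) = 0 := by
    intro x
    apply Prod.ext
    · rw [Prod.fst_sum]
      exact x.1.2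
    · rw [Prod.snd_sum]
      exact x.2.2
  have h := isot_cls hv2 hs hφ hq has haφ (fixPair s φ) (x := fun i => (x.1.1 i, x.2.1 i))
    (y := fun i => (y.1.1 i, y.2.1 i)) (key x) (key y) h1 h2 h3 h4
  rw [← h]
  simp only [sym, dotE_apply, brk, Finset.sum_add_distrib, ← Finset.mul_sum]

open L in
/-- **The quadratic form.** -/
theorem quad_jac (hv2 : w.valuation 2 = 1) {s φ : Om ≃ₐ[K] Om} (hs : s ∈ iner K w)
    (hφ : IsFrob K w φ) {m : ℕ} (hq : resCard (below K w) = 2 * m + 1)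
    (has : ∀ i, s (a i) = a i) (haφ : ∀ i, φ (a i) = a i)
    {Q : JJ (ff a)} {x : EV g × EV g} {δ : Fin (2 * g + 1) → ZMod 2 × ZMod 2}
    (h1 : act (s : Om ≃+* Om) (map_ff _ has) Q = Q + ∑ i, (x.1.1 i).val • ee a i)
    (h2 : act (φ : Om ≃+* Om) (map_ff _ haφ) Q = Q + ∑ i, (x.2.1 i).val • ee a i)
    (hδ : ∀ i, ∃ r : Om, r ^ 2 = dd a i ∧ Sg s r (δ i).1 ∧ Sg φ r (δ i).2) :
    E4.hs (m : ZMod 2) (fun i => (x.1.1 i, x.2.1 i)) +
      ∑ i, brk (m : ZMod 2) (δ i) (x.1.1 i, x.2.1 i) = 0 := by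
  refine quad_cls hv2 hs hφ hq has haφ (fixPair s φ) ?_ h1 h2 hδ
  apply Prod.ext
  · rw [Prod.fst_sum]
    exact x.1.2
  · rw [Prod.snd_sum]
    exact x.2.2

end Pool.Agent.SmJ.E4
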