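import Mathlib

/-!
SMITH for Jacobians (MP_950c68_ag), part E4: the Hasse sum of a family of local square classes.

A square class is coded by the pair `(u sg, u phi)` of its signs at the tame generator and at the
Frobenius; `brk ep` is the local symbol in terms of these pairs, `hs ep u` is the sum of
`brk ep (u i) (u j)` over the unordered pairs `i ≠ j` (written without an order of the indices).
-/

set_option autoImplicit false

namespace Pool.Agent.SmJ.E4

/-- The symbol of two pairs of signs. -/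
def brk (ep : ZMod 2) (u v : ZMod 2 × ZMod 2) : ZMod 2 :=
  u.1 * v.2 + u.2 * v.1 + ep * (u.1 * v.1)

theorem brk_comm (ep : ZMod 2) (u v : ZMod 2 × ZMod 2) : brk ep u v = brk ep v u := by
  unfold brk; ring

theorem brk_add_left (ep : ZMod 2) (u v w : ZMod 2 × ZMod 2) :
    brk ep (u + v) w = brk ep u w + brk ep v w := by
  simp only [brk, Prod.fst_add, Prod.snd_add]; ring

theorem brk_add_right (ep : ZMod 2) (u v w : ZMod 2 × ZMod 2) :
    brk ep u (v + w) = brk ep u v + brk ep u w := by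
  simp only [brk, Prod.fst_add, Prod.snd_add]; ring

theorem brk_zero_left (ep : ZMod 2) (u : ZMod 2 × ZMod 2) : brk ep 0 u = 0 := by
  simp [brk]

theorem brk_zero_right (ep : ZMod 2) (u : ZMod 2 × ZMod 2) : brk ep u 0 = 0 := by
  simp [brk]

theorem add_self2 (u : ZMod 2 × ZMod 2) : u + u = 0 := by
  revert u; decide

/-- The Hasse sum. -/
noncomputable def hs {ι : Type} [Fintype ι] (ep : ZMod 2) (u : ι → ZMod 2 × ZMod 2) : ZMod 2 :=
  (∑ i, (u i).1) * (∑ i, (u i).2) + ∑ i, (u i).1 * (u i).2 +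
    ep * (((∑ i, ((u i).1).val).choose 2 : ℕ) : ZMod 2)

theorem sum_two {ι M : Type} [Fintype ι] [DecidableEq ι] [AddCommMonoid M] (f : ι → M) {i j : ι}
    (hij : i ≠ j) : ∑ k, f k = f i + f j + ∑ k : {k // k ≠ i ∧ k ≠ j}, f k := by
  rw [← Finset.add_sum_erase Finset.univ f (Finset.mem_univ i),
    ← Finset.add_sum_erase (Finset.univ.erase i) f
      (Finset.mem_erase.mpr ⟨hij.symm, Finset.mem_univ j⟩), add_assoc]
  congr 2
  exact Finset.sum_subtype _ (fun x => by
    simp only [Finset.mem_erase, Finset.mem_univ, and_true]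
    exact and_comm) f

theorem choose_cast (n : ℕ) (p q : ZMod 2) :
    (((p.val + q.val + n).choose 2 : ℕ) : ZMod 2) =
      ((n.choose 2 : ℕ) : ZMod 2) + (p + q) * n + p * q := by
  have hp : p = 0 ∨ p = 1 := by revert p; decide
  have hq : q = 0 ∨ q = 1 := by revert q; decide
  have v1 : (1 : ZMod 2).val = 1 := rfl
  have c1 : ((n + 1).choose 2 : ℕ) = n + n.choose 2 := by
    rw [Nat.choose_succ_succ' n 1, Nat.choose_one_right]
  have c2 : ((n + 2).choose 2 : ℕ) = n + 1 + (n + n.choose 2) := by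
    rw [Nat.choose_succ_succ' (n + 1) 1, Nat.choose_one_right, ← c1]
  rcases hp with rfl | rfl <;> rcases hq with rfl | rfl
  · simp
  · rw [ZMod.val_zero, v1, zero_add, add_comm 1 n, c1]
    push_cast
    ring
  · rw [ZMod.val_zero, v1, add_zero, add_comm 1 n, c1]
    push_cast
    ring
  · rw [v1, add_comm (1 + 1) n, c2]
    push_cast
    have h2 : ∀ x : ZMod 2, 2 * x = 0 := by decide
    linear_combination h2 0

/-- Two members of the family split off. -/
theorem hs_split {ι : Type} [Fintype ι] [DecidableEq ι] (ep : ZMod 2) (u : ι → ZMod 2 × ZMod 2)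
    {i j : ι} (hij : i ≠ j) :
    hs ep u = hs ep (fun k : {k // k ≠ i ∧ k ≠ j} => u k) + brk ep (u i) (u j) +
      brk ep (u i + u j) (∑ k : {k // k ≠ i ∧ k ≠ j}, u k) := by
  have e1 := sum_two (fun k => (u k).1) hij
  have e2 := sum_two (fun k => (u k).2) hij
  have e3 := sum_two (fun k => (u k).1 * (u k).2) hij
  have e4 := sum_two (fun k => ((u k).1).val) hij
  have e5 : ((∑ k : {k // k ≠ i ∧ k ≠ j}, ((u k).1).val : ℕ) : ZMod 2) =
      ∑ k : {k // k ≠ i ∧ k ≠ j}, (u k).1 := by
    rw [Nat.cast_sum]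
    refine Finset.sum_congr rfl fun k _ => ?_
    rw [ZMod.natCast_zmod_val]
  unfold hs
  rw [e1, e2, e3, e4, choose_cast, e5]
  simp only [brk, Prod.fst_add, Prod.snd_add, Prod.fst_sum, Prod.snd_sum]
  generalize (∑ k : {k // k ≠ i ∧ k ≠ j}, (u k).1) = A
  generalize (∑ k : {k // k ≠ i ∧ k ≠ j}, (u k).2) = B
  generalize (∑ k : {k // k ≠ i ∧ k ≠ j}, (u k).1 * (u k).2) = C
  generalize (((∑ k : {k // k ≠ i ∧ k ≠ j}, ((u k).1).val).choose 2 : ℕ) : ZMod 2) = N
  obtain ⟨a, b⟩ := u i
  obtain ⟨c, d⟩ := u j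
  simp only
  have h2 : ∀ x : ZMod 2, 2 * x = 0 := by decide
  linear_combination h2 (a * b) + h2 (c * d)

/-- The Hasse sum of one class. -/
theorem hs_one {ι : Type} [Fintype ι] (h : Fintype.card ι = 1) (ep : ZMod 2)
    (u : ι → ZMod 2 × ZMod 2) : hs ep u = 0 := by
  obtain ⟨i, hi⟩ := Fintype.card_eq_one_iff.mp h
  have : Unique ι := ⟨⟨i⟩, hi⟩
  unfold hs
  simp only [Fintype.sum_unique]
  have h1 : ((u default).1).val < 2 := ZMod.val_lt _
  rw [Nat.choose_eq_zero_of_lt h1]
  simp only [Nat.cast_zero, mul_zero, add_zero]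
  exact CharTwo.add_self_eq_zero _

end Pool.Agent.SmJ.E4
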