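import Pool.Agent.Lib.SmJ.E4.Pol
import Pool.Agent.Lib.SM.E.Stein

/-!
SMITH for Jacobians (MP_950c68_ag), part E4: the field fixed by the tame generator `s` and the
Frobenius `φ`, its symbol, and the isotropy theorem for Mumford triples fixed by `s` and `φ`.
-/

set_option autoImplicit false
set_option linter.unusedSectionVars false

open Polynomial Module

namespace Pool.Agent.SmJ.E4

open Pool.Agent.Lib.SmD Pool.Agent.SmithE

variable {K Om : Type} [Field K] [Field Om] [Algebra K Om]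

/-- The field fixed by `s` and `φ`. -/
noncomputable def FF (s φ : Om ≃ₐ[K] Om) : IntermediateField K Om :=
  IntermediateField.fixedField (Subgroup.closure {s, φ})

theorem mem_FF {s φ : Om ≃ₐ[K] Om} {x : Om} : x ∈ FF s φ ↔ s x = x ∧ φ x = x := by
  rw [FF, IntermediateField.mem_fixedField_iff]
  constructor
  · intro h
    exact ⟨h s (Subgroup.subset_closure (by simp)), h φ (Subgroup.subset_closure (by simp))⟩
  · rintro ⟨h1, h2⟩ τ hτ
    induction hτ using Subgroup.closure_induction with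
    | mem x hx =>
      rcases hx with rfl | rfl
      · exact h1
      · exact h2
    | one => rfl
    | mul a b _ _ ha hb => rw [AlgEquiv.mul_apply, hb, ha]
    | inv a _ ha =>
      have h3 : a⁻¹ (a x) = x := by
        rw [← AlgEquiv.mul_apply, inv_mul_cancel]; rfl
      rw [ha] at h3
      exact h3

open scoped Classical in
/-- The pair of signs of the square roots. -/
noncomputable def sgF (s φ : Om ≃ₐ[K] Om) (x : FF s φ) : ZMod 2 × ZMod 2 :=
  (if ∃ r : Om, r ^ 2 = (x : Om) ∧ s r = r then 0 else 1,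
    if ∃ r : Om, r ^ 2 = (x : Om) ∧ φ r = r then 0 else 1)

section

variable (h20 : (2 : Om) ≠ 0)

include h20

open scoped Classical in
theorem sign_eq {s : Om ≃ₐ[K] Om} {x r : Om} (hx : x ≠ 0) (hr : r ^ 2 = x) {a : ZMod 2}
    (ha : Sg s r a) : (if ∃ r : Om, r ^ 2 = x ∧ s r = r then (0 : ZMod 2) else 1) = a := by
  have hr0 : r ≠ 0 := by
    rintro rfl
    exact hx (by rw [← hr]; ring)
  rcases zcases a with rfl | rfl
  · rw [if_pos ⟨r, hr, Sg_zero.mp ha⟩]
  · rw [if_neg]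
    rintro ⟨r', h1, h2⟩
    have h3 : Sg s r' 1 := ha.of_sq_eq (by rw [h1, hr])
    have hr' : r' ≠ 0 := by
      rintro rfl
      exact hx (by rw [← h1]; ring)
    exact absurd (h3.unique h20 hr' (Sg_zero.mpr h2)) (by decide)

theorem sgF_eq {s φ : Om ≃ₐ[K] Om} {x : FF s φ} (hx : (x : Om) ≠ 0) {r : Om} (hr : r ^ 2 = (x : Om))
    {a b : ZMod 2} (ha : Sg s r a) (hb : Sg φ r b) : sgF s φ x = (a, b) :=
  Prod.ext (sign_eq h20 hx hr ha) (sign_eq h20 hx hr hb)

theorem exists_root [IsSepClosed Om] {s φ : Om ≃ₐ[K] Om} (x : FF s φ) :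
    ∃ (r : Om) (a b : ZMod 2), r ^ 2 = (x : Om) ∧ Sg s r a ∧ Sg φ r b := by
  obtain ⟨r, hr⟩ := exists_sqrt h20 (x : Om)
  have h1 := mem_FF.mp x.2
  obtain ⟨a, ha⟩ := exists_Sg (s := s) (r := r) (by rw [hr, h1.1])
  obtain ⟨b, hb⟩ := exists_Sg (s := φ) (r := r) (by rw [hr, h1.2])
  exact ⟨r, a, b, hr, ha, hb⟩

end

variable [IsSepClosed Om] {w : ValuationSubring Om}

/-- The Steinberg symbol of the field fixed by `s`, `φ`. -/
theorem stb (hv2 : w.valuation 2 = 1) {s φ : Om ≃ₐ[K] Om} (hs : s ∈ iner K w)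
    (hφ : IsFrob K w φ) {m : ℕ} (hq : resCard (below K w) = 2 * m + 1) :
    Stb (m : ZMod 2) (sgF s φ) := by
  have h20 : (2 : Om) ≠ 0 := two_ne_zero_Om hv2
  refine ⟨?_, ?_⟩
  · intro x y hx hy
    have hx' : (x : Om) ≠ 0 := fun h => hx (Subtype.ext h)
    have hy' : (y : Om) ≠ 0 := fun h => hy (Subtype.ext h)
    obtain ⟨r, a, b, h1, h2, h3⟩ := exists_root h20 x
    obtain ⟨r', a', b', h1', h2', h3'⟩ := exists_root h20 y
    rw [sgF_eq h20 hx' h1 h2 h3, sgF_eq h20 hy' h1' h2' h3',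
      sgF_eq h20 (x := x * y) (by exact mul_ne_zero hx' hy') (r := r * r')
        (by rw [mul_pow, h1, h1']; rfl) (h2.mul h2') (h3.mul h3')]
    rfl
  · intro x y hx hy hxy
    have hx' : (x : Om) ≠ 0 := fun h => hx (Subtype.ext h)
    have hy' : (y : Om) ≠ 0 := fun h => hy (Subtype.ext h)
    obtain ⟨r, a, b, h1, h2, h3⟩ := exists_root h20 x
    obtain ⟨r', a', b', h1', h2', h3'⟩ := exists_root h20 y
    rw [sgF_eq h20 hx' h1 h2 h3, sgF_eq h20 hy' h1' h2' h3']
    have hr : r ≠ 0 := by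
      rintro rfl
      exact hx' (by rw [← h1]; ring)
    have hr' : r' ≠ 0 := by
      rintro rfl
      exact hy' (by rw [← h1']; ring)
    have e : r ^ 2 + r' ^ 2 = 1 := by
      rw [h1, h1']
      exact congrArg Subtype.val hxy
    exact steinberg hv2 hs hφ hq hr hr' e h2 h3 h2' h3'

/-- A polynomial fixed by `s` and `φ` has coefficients in the fixed field. -/
theorem exists_lift {s φ : Om ≃ₐ[K] Om} {P : Om[X]} (h1 : P.map (s : Om →+* Om) = P)
    (h2 : P.map (φ : Om →+* Om) = P) : ∃ Q : (FF s φ)[X], Q.map (algebraMap (FF s φ) Om) = P := by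
  have h3 : P ∈ lifts (algebraMap (FF s φ) Om) := by
    rw [lifts_iff_coeff_lifts]
    intro n
    have e1 := congrArg (fun q => coeff q n) h1
    have e2 := congrArg (fun q => coeff q n) h2
    simp only [coeff_map] at e1 e2
    exact ⟨⟨P.coeff n, mem_FF.mpr ⟨e1, e2⟩⟩, rfl⟩
  obtain ⟨Q, hQ⟩ := (mem_lifts _).mp h3
  exact ⟨Q, hQ⟩

/-- The vector of pairs of signs of a Mumford triple fixed by `s` and `φ`. -/
def MumD {g : ℕ} (s φ : Om ≃ₐ[K] Om) (a : Fin (2 * g + 1) → Om)
    (x : Fin (2 * g + 1) → ZMod 2 × ZMod 2) : Prop :=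
  ∃ U V W : Om[X], Mum a U V W ∧ U.map (s : Om →+* Om) = U ∧ U.map (φ : Om →+* Om) = U ∧
    V.map (s : Om →+* Om) = V ∧ V.map (φ : Om →+* Om) = V ∧
    ∀ i, ∃ r : Om, r ^ 2 = al a U W i ∧ Sg s r (x i).1 ∧ Sg φ r (x i).2

theorem map_ff' {g : ℕ} {F E : Type} [Field F] [Field E] (j : F →+* E) (a : Fin (2 * g + 1) → F) :
    (ff a).map j = ff fun i => j (a i) := by
  rw [ff, ff, Polynomial.map_prod]
  exact Finset.prod_congr rfl fun i _ => by simp

/-- Descent of Mumford triples to the fixed field. -/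
theorem MumD.isMum {g : ℕ} (h20 : (2 : Om) ≠ 0) {s φ : Om ≃ₐ[K] Om} {a : Fin (2 * g + 1) → Om}
    (ha : Function.Injective a) (b : Fin (2 * g + 1) → FF s φ) (hba : ∀ i, (b i : Om) = a i)
    {z : Fin (2 * g + 1) → ZMod 2 × ZMod 2} (hz : MumD s φ a z) : IsMum (sgF s φ) b z := by
  have has : ∀ i, s (a i) = a i := fun i => by rw [← hba i]; exact (mem_FF.mp (b i).2).1
  have haφ : ∀ i, φ (a i) = a i := fun i => by rw [← hba i]; exact (mem_FF.mp (b i).2).2
  have hb : Function.Injective b := fun i j h => ha (by rw [← hba i, ← hba j, h])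
  have hinj : Function.Injective (algebraMap (FF s φ) Om) := (algebraMap (FF s φ) Om).injective
  have hba' : (fun i => algebraMap (FF s φ) Om (b i)) = a := funext hba
  obtain ⟨U, V, W, hm, u1, u2, v1, v2, hr⟩ := hz
  have f1 : (ff a).map (s : Om →+* Om) = ff a := by
    rw [map_ff']
    congr 1
    funext i
    exact has i
  have f2 : (ff a).map (φ : Om →+* Om) = ff a := by
    rw [map_ff']
    congr 1
    funext i
    exact haφ i
  have hW : ∀ τ : Om →+* Om, (ff a).map τ = ff a → U.map τ = U → V.map τ = V → W.map τ = W := by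
    intro τ t1 t2 t3
    have e := congrArg (Polynomial.map τ) hm.eq
    rw [Polynomial.map_sub, Polynomial.map_mul, Polynomial.map_pow, t1, t2, t3] at e
    have e2 : U * (W.map τ) = U * W := by linear_combination hm.eq - e
    exact mul_left_cancel₀ hm.monic.ne_zero e2
  obtain ⟨U', rfl⟩ := exists_lift u1 u2
  obtain ⟨V', rfl⟩ := exists_lift v1 v2
  obtain ⟨W', rfl⟩ := exists_lift (hW _ f1 u1 v1) (hW _ f2 u2 v2)
  have hm' : Mum b U' V' W' := by
    refine ⟨?_, ?_, ?_, ?_⟩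
    · exact (hinj.monic_map_iff).mpr hm.monic
    · have := hm.deg
      rwa [natDegree_map] at this
    · have := hm.lt
      rwa [degree_map, degree_map] at this
    · apply Polynomial.map_injective _ hinj
      rw [map_ff', hba', ← hm.eq, Polynomial.map_sub, Polynomial.map_mul, Polynomial.map_pow]
  refine ⟨U', V', W', hm', fun i => ?_⟩
  have e : ((al b U' W' i : FF s φ) : Om) = al a (U'.map (algebraMap (FF s φ) Om))
      (W'.map (algebraMap (FF s φ) Om)) i := by
    have e1 : ∀ P : (FF s φ)[X], (P.map (algebraMap (FF s φ) Om)).eval (a i) =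
        ((P.eval (b i) : FF s φ) : Om) := fun P => by
      rw [← hba i]
      exact eval_map_apply (algebraMap (FF s φ) Om) (b i)
    rw [al, al, natDegree_map, e1, e1]
    have e2 : (((U'.eval (b i) : FF s φ) : Om) = 0) ↔ (U'.eval (b i) = 0) :=
      ⟨fun h => Subtype.ext h, fun h => by rw [h]; rfl⟩
    by_cases h0 : U'.eval (b i) = 0
    · rw [if_pos h0, if_pos (e2.mpr h0)]
      push_cast
      rfl
    · rw [if_neg h0, if_neg (fun h => h0 (e2.mp h))]
      push_cast
      rfl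
  obtain ⟨r, r1, r2, r3⟩ := hr i
  rw [← e] at r1
  have hne : ((al b U' W' i : FF s φ) : Om) ≠ 0 := fun h => hm'.al_ne hb i (Subtype.ext h)
  exact sgF_eq h20 hne r1 r2 r3

theorem coe_dd {g : ℕ} {s φ : Om ≃ₐ[K] Om} (b : Fin (2 * g + 1) → FF s φ)
    (i : Fin (2 * g + 1)) : ((dd b i : FF s φ) : Om) = dd (fun j => (b j : Om)) i := by
  unfold dd
  push_cast
  rfl

/-- **Isotropy of the local Kummer group.** -/
theorem isot_local {g : ℕ} (hv2 : w.valuation 2 = 1) {s φ : Om ≃ₐ[K] Om} (hs : s ∈ iner K w)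
    (hφ : IsFrob K w φ) {m : ℕ} (hq : resCard (below K w) = 2 * m + 1)
    {a : Fin (2 * g + 1) → Om} (ha : Function.Injective a) (has : ∀ i, s (a i) = a i)
    (haφ : ∀ i, φ (a i) = a i) {x y : Fin (2 * g + 1) → ZMod 2 × ZMod 2} (hx : MumD s φ a x)
    (hy : MumD s φ a y) (hxy : MumD s φ a (x + y)) (hx0 : ∑ i, x i = 0) (hy0 : ∑ i, y i = 0) :
    ∑ i, brk (m : ZMod 2) (x i) (y i) = 0 := by
  have h20 : (2 : Om) ≠ 0 := two_ne_zero_Om hv2
  let b : Fin (2 * g + 1) → FF s φ := fun i => ⟨a i, mem_FF.mpr ⟨has i, haφ i⟩⟩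
  have hb : Function.Injective b := fun i j h => ha (congrArg Subtype.val h)
  have h2F : (2 : FF s φ) ≠ 0 := by
    intro h
    apply h20
    have := congrArg Subtype.val h
    exact this
  exact isMum_isot h2F (stb hv2 hs hφ hq) hb (hx.isMum h20 ha b fun i => rfl)
    (hy.isMum h20 ha b fun i => rfl) (hxy.isMum h20 ha b fun i => rfl) hx0 hy0

/-- **The quadratic form vanishes on the local Kummer group** (`δ i` is the pair of signs of the
square root of `f'(a i)`). -/
theorem quad_local {g : ℕ} (hv2 : w.valuation 2 = 1) {s φ : Om ≃ₐ[K] Om} (hsI : s ∈ iner K w)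
    (hφ : IsFrob K w φ) {m : ℕ} (hq : resCard (below K w) = 2 * m + 1)
    {a : Fin (2 * g + 1) → Om} (ha : Function.Injective a) (has : ∀ i, s (a i) = a i)
    (haφ : ∀ i, φ (a i) = a i) {x δ : Fin (2 * g + 1) → ZMod 2 × ZMod 2} (hx : MumD s φ a x)
    (hx0 : ∑ i, x i = 0)
    (hδ : ∀ i, ∃ r : Om, r ^ 2 = dd a i ∧ Sg s r (δ i).1 ∧ Sg φ r (δ i).2) :
    hs (m : ZMod 2) x + ∑ i, brk (m : ZMod 2) (δ i) (x i) = 0 := by
  have h20 : (2 : Om) ≠ 0 := two_ne_zero_Om hv2
  let b : Fin (2 * g + 1) → FF s φ := fun i => ⟨a i, mem_FF.mpr ⟨has i, haφ i⟩⟩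
  have hb : Function.Injective b := fun i j h => ha (congrArg Subtype.val h)
  have h2F : (2 : FF s φ) ≠ 0 := by
    intro h
    apply h20
    have := congrArg Subtype.val h
    exact this
  have h1 := hs_isMum h2F (stb hv2 hsI hφ hq) hb (hx.isMum h20 ha b fun i => rfl) hx0
  have e : ∀ i, sgF s φ (dd b i) = δ i := by
    intro i
    obtain ⟨r, r1, r2, r3⟩ := hδ i
    have e1 : ((dd b i : FF s φ) : Om) = dd a i := coe_dd b i
    rw [← e1] at r1
    exact sgF_eq h20 (fun h => dd_ne hb i (Subtype.ext h)) r1 r2 r3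
  simp only [e] at h1
  rw [hs_add, hx0, brk_zero_right] at h1
  linear_combination h1

end Pool.Agent.SmJ.E4
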