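import Pool.Agent.Lib.SmJ.E4.Tri

/-!
SMITH for Jacobians (MP_950c68_ag), part E4: polarisation of the Hasse sum, and the abstract
isotropy theorem.
-/

set_option autoImplicit false

open Polynomial Module

namespace Pool.Agent.SmJ.E4

section pol

variable {ι : Type}

theorem choose_add (s : Finset ι) (a b : ι → ZMod 2) :
    (((∑ i ∈ s, (a i + b i).val).choose 2 : ℕ) : ZMod 2) =
      (((∑ i ∈ s, (a i).val).choose 2 : ℕ) : ZMod 2) +
      (((∑ i ∈ s, (b i).val).choose 2 : ℕ) : ZMod 2) +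
      (∑ i ∈ s, a i) * (∑ i ∈ s, b i) + ∑ i ∈ s, a i * b i := by
  classical
  have hrec : ∀ (c : ι → ZMod 2) (s : Finset ι) (k : ι), k ∉ s →
      (((∑ i ∈ insert k s, (c i).val).choose 2 : ℕ) : ZMod 2) =
        (((∑ i ∈ s, (c i).val).choose 2 : ℕ) : ZMod 2) + c k * (∑ i ∈ s, c i) := by
    intro c s k hk
    rw [Finset.sum_insert hk]
    have h := choose_cast (∑ i ∈ s, (c i).val) (c k) 0
    rw [ZMod.val_zero, add_zero, add_zero, mul_zero, add_zero] at h
    rw [h]
    congr 2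
    rw [Nat.cast_sum]
    exact Finset.sum_congr rfl fun i _ => ZMod.natCast_zmod_val _
  induction s using Finset.induction_on with
  | empty => simp
  | insert k s hk ih =>
    rw [hrec (fun i => a i + b i) s k hk, hrec a s k hk, hrec b s k hk, ih, Finset.sum_insert hk,
      Finset.sum_insert hk, Finset.sum_insert hk, Finset.sum_add_distrib]
    have h2 : ∀ x : ZMod 2, 2 * x = 0 := by decide
    linear_combination - h2 (a k * b k)

variable [Fintype ι]

/-- The Hasse sum is quadratic. -/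
theorem hs_add (ep : ZMod 2) (u v : ι → ZMod 2 × ZMod 2) :
    hs ep (fun i => u i + v i) = hs ep u + hs ep v + brk ep (∑ i, u i) (∑ i, v i) +
      ∑ i, brk ep (u i) (v i) := by
  have h1 := choose_add Finset.univ (fun i => (u i).1) (fun i => (v i).1)
  unfold hs
  simp only [Prod.fst_add, Prod.snd_add] at h1 ⊢
  rw [h1]
  simp only [brk, Prod.fst_sum, Prod.snd_sum, Finset.sum_add_distrib, add_mul, mul_add,
    ← Finset.mul_sum]
  have e1 : ∑ i, (v i).1 * (u i).2 = ∑ i, (u i).2 * (v i).1 :=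
    Finset.sum_congr rfl fun i _ => mul_comm _ _
  rw [e1]
  ring

/-- **Polarisation.** -/
theorem brk_sum_eq_zero (ep : ZMod 2) (u x y : ι → ZMod 2 × ZMod 2) (hx : ∑ i, x i = 0)
    (hy : ∑ i, y i = 0) (h1 : hs ep (fun i => u i + x i) = hs ep u)
    (h2 : hs ep (fun i => u i + y i) = hs ep u)
    (h3 : hs ep (fun i => u i + (x i + y i)) = hs ep u) : ∑ i, brk ep (x i) (y i) = 0 := by
  rw [hs_add, hx, brk_zero_right] at h1
  rw [hs_add, hy, brk_zero_right] at h2
  rw [hs_add, Finset.sum_add_distrib, hx, hy, hs_add, hx, hy] at h3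
  simp only [brk_add_right, Finset.sum_add_distrib, brk_zero_right, add_zero] at h3
  have e1 : hs ep x + ∑ i, brk ep (u i) (x i) = 0 := by linear_combination h1
  have e2 : hs ep y + ∑ i, brk ep (u i) (y i) = 0 := by linear_combination h2
  linear_combination h3 - e1 - e2

end pol

section abs

variable {F : Type} [Field F] {ep : ZMod 2} {sg : F → ZMod 2 × ZMod 2} {g : ℕ}

/-- The pair of sign vectors of a Mumford triple. -/
def IsMum (sg : F → ZMod 2 × ZMod 2) (a : Fin (2 * g + 1) → F)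
    (x : Fin (2 * g + 1) → ZMod 2 × ZMod 2) : Prop :=
  ∃ U V W : F[X], Mum a U V W ∧ ∀ i, sg (al a U W i) = x i

theorem isMum_zero (hS : Stb ep sg) (a : Fin (2 * g + 1) → F) : IsMum sg a 0 := by
  refine ⟨1, 0, -ff a, ⟨monic_one, by simp, by simp, by ring⟩, fun i => ?_⟩
  simp [al, hS.one]

theorem hs_isMum (h2 : (2 : F) ≠ 0) (hS : Stb ep sg) {a : Fin (2 * g + 1) → F}
    (ha : Function.Injective a) {x : Fin (2 * g + 1) → ZMod 2 × ZMod 2} (hx : IsMum sg a x)
    (h0 : ∑ i, x i = 0) :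
    hs ep (fun i => sg (dd a i) + x i) = hs ep (fun i => sg (dd a i)) := by
  obtain ⟨c, hc⟩ := witt h2 hS g
  have key : ∀ x : Fin (2 * g + 1) → ZMod 2 × ZMod 2, IsMum sg a x →
      hs ep (fun i => sg (dd a i) + x i) = c (∑ i, sg (dd a i) + ∑ i, x i) := by
    rintro x ⟨U, V, W, hm, hal⟩
    obtain ⟨X, hX, hX'⟩ := hm.exists_isot ha
    have e : ∀ i, sg (al a U W i / dd a i) = sg (dd a i) + x i := by
      intro i
      rw [hS.div _ _ (hm.al_ne ha i) (dd_ne ha i), hal, add_comm]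
    have h := hc (Fin (2 * g + 1)) (Fintype.card_fin _) _ X
      (fun k => div_ne_zero (hm.al_ne ha k) (dd_ne ha k)) hX hX'
    simp only [e] at h
    rw [h, Finset.sum_add_distrib]
  have k0 := key 0 (isMum_zero hS a)
  rw [key x hx, h0]
  simp only [Pi.zero_apply, add_zero, Finset.sum_const_zero] at k0 ⊢
  exact k0.symm

/-- **Abstract isotropy theorem.** -/
theorem isMum_isot (h2 : (2 : F) ≠ 0) (hS : Stb ep sg) {a : Fin (2 * g + 1) → F}
    (ha : Function.Injective a) {x y : Fin (2 * g + 1) → ZMod 2 × ZMod 2} (hx : IsMum sg a x)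
    (hy : IsMum sg a y) (hxy : IsMum sg a (x + y)) (hx0 : ∑ i, x i = 0) (hy0 : ∑ i, y i = 0) :
    ∑ i, brk ep (x i) (y i) = 0 := by
  refine brk_sum_eq_zero ep (fun i => sg (dd a i)) x y hx0 hy0 (hs_isMum h2 hS ha hx hx0)
    (hs_isMum h2 hS ha hy hy0) (hs_isMum h2 hS ha hxy ?_)
  change ∑ i, (x i + y i) = 0
  rw [Finset.sum_add_distrib, hx0, hy0, add_zero]

end abs

end Pool.Agent.SmJ.E4
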