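import Pool.Agent.Lib.SmJ.E4.WittMain
import Pool.Agent.Lib.SmJ.E.Defs

/-!
SMITH for Jacobians (MP_950c68_ag), part E4: the isotropic subspace of a Mumford triple.

`U` monic of degree `m ≤ g`, `deg V < m`, `V ^ 2 - U W = f`. With
`Θ(P, R) = U P ^ 2 + 2 V P R + W R ^ 2` one has `∑ Θ(a i) / f'(a i) = 0` when `deg Θ < 2 g`, and
`Θ(a i)` is `U(a i)` times a square, or `W(a i)` times a square if `U(a i) = 0`.
-/

set_option autoImplicit false

open Polynomial Module

namespace Pool.Agent.SmJ.E4

variable {F : Type} [Field F] {g : ℕ}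

/-- The `x - T` class of a Mumford triple. -/
noncomputable def al (a : Fin (2 * g + 1) → F) (U W : F[X]) (i : Fin (2 * g + 1)) : F :=
  open scoped Classical in
  (-1) ^ U.natDegree * (if U.eval (a i) = 0 then W.eval (a i) else U.eval (a i))

/-- `f'(a i)`. -/
noncomputable def dd (a : Fin (2 * g + 1) → F) (i : Fin (2 * g + 1)) : F :=
  ∏ j ∈ Finset.univ.erase i, (a i - a j)

theorem dd_ne {a : Fin (2 * g + 1) → F} (ha : Function.Injective a) (i : Fin (2 * g + 1)) :
    dd a i ≠ 0 := by
  rw [dd, Finset.prod_ne_zero_iff]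
  intro j hj
  exact sub_ne_zero.mpr fun h => (Finset.ne_of_mem_erase hj) (ha h).symm

theorem eval_deriv_ff (a : Fin (2 * g + 1) → F) (i : Fin (2 * g + 1)) :
    (derivative (ff a)).eval (a i) = dd a i := by
  have h : ff a = Lagrange.nodal Finset.univ a := rfl
  rw [h, Lagrange.eval_nodal_derivative_eval_node_eq (Finset.mem_univ i), Lagrange.eval_nodal]
  rfl

/-- A Mumford triple. -/
structure Mum (a : Fin (2 * g + 1) → F) (U V W : F[X]) : Prop where
  monic : U.Monic
  deg : U.natDegree ≤ g
  lt : V.degree < U.degree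
  eq : V ^ 2 - U * W = ff a

namespace Mum

variable {a : Fin (2 * g + 1) → F} {U V W : F[X]} (h : Mum a U V W)

include h

theorem natDegree_V (hV : V ≠ 0) : V.natDegree < U.natDegree :=
  (natDegree_lt_natDegree_iff hV).mpr h.lt

theorem natDegree_W : W.natDegree ≤ 2 * g + 1 - U.natDegree := by
  by_cases hW : W = 0
  · rw [hW, natDegree_zero]; exact Nat.zero_le _
  have h1 : U * W = V ^ 2 - ff a := by linear_combination -h.eq
  have h2 : (U * W).natDegree ≤ 2 * g + 1 := by
    rw [h1]
    refine (natDegree_sub_le _ _).trans (max_le ?_ (natDegree_ff a).le)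
    rw [natDegree_pow]
    by_cases hV : V = 0
    · rw [hV, natDegree_zero]; omega
    · have := h.natDegree_V hV
      have := h.deg
      omega
  rw [natDegree_mul h.monic.ne_zero hW] at h2
  omega

theorem eval_sq (i : Fin (2 * g + 1)) :
    V.eval (a i) ^ 2 = U.eval (a i) * W.eval (a i) := by
  have h1 := congrArg (Polynomial.eval (a i)) h.eq
  rw [ff_eval_br, eval_sub, eval_pow, eval_mul] at h1
  linear_combination h1

theorem eval_V {i : Fin (2 * g + 1)} (hi : U.eval (a i) = 0) : V.eval (a i) = 0 := by
  have h1 := h.eval_sq i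
  rw [hi, zero_mul] at h1
  exact pow_eq_zero_iff two_ne_zero |>.mp h1

theorem eval_W (ha : Function.Injective a) {i : Fin (2 * g + 1)} (hi : U.eval (a i) = 0) :
    W.eval (a i) ≠ 0 := by
  intro hW
  have hV := h.eval_V hi
  have h1 := congrArg (fun p => (derivative p).eval (a i)) h.eq
  simp only [derivative_sub, derivative_mul, derivative_pow, eval_sub, eval_add, eval_mul,
    eval_pow, hi, hW, hV, eval_deriv_ff, Nat.cast_ofNat] at h1
  apply dd_ne ha i
  rw [← h1]
  simp

theorem al_ne (ha : Function.Injective a) (i : Fin (2 * g + 1)) : al a U W i ≠ 0 := by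
  unfold al
  refine mul_ne_zero (pow_ne_zero _ (neg_ne_zero.mpr one_ne_zero)) ?_
  split_ifs with hi
  · exact h.eval_W ha hi
  · exact hi

end Mum

/-- `Θ`. -/
noncomputable def Th (U V W P R : F[X]) : F[X] := U * P ^ 2 + 2 * (V * (P * R)) + W * R ^ 2

theorem Mum.degree_Th {a : Fin (2 * g + 1) → F} {U V W : F[X]} (h : Mum a U V W) {P R : F[X]}
    (hP : P.degree < ((2 * g + 1 - U.natDegree) / 2 : ℕ)) (hR : R.degree < (U.natDegree / 2 : ℕ)) :
    (Th U V W P R).degree < (2 * g : ℕ) := by
  have hm := h.deg
  have key : ∀ q : F[X], (q ≠ 0 → q.natDegree < 2 * g) → q.degree < (2 * g : ℕ) := by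
    intro q hq
    by_cases h0 : q = 0
    · rw [h0, degree_zero]
      exact WithBot.bot_lt_coe _
    · refine degree_le_natDegree.trans_lt ?_
      exact_mod_cast hq h0
  have nP : P ≠ 0 → P.natDegree < (2 * g + 1 - U.natDegree) / 2 := by
    intro h0
    rw [degree_eq_natDegree h0] at hP
    exact_mod_cast hP
  have nR : R ≠ 0 → R.natDegree < U.natDegree / 2 := by
    intro h0
    rw [degree_eq_natDegree h0] at hR
    exact_mod_cast hR
  unfold Th
  refine (degree_add_le _ _).trans_lt (max_lt ((degree_add_le _ _).trans_lt (max_lt ?_ ?_)) ?_)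
  · refine key _ fun h0 => ?_
    have hP0 : P ≠ 0 := by rintro rfl; simp at h0
    rw [natDegree_mul h.monic.ne_zero (pow_ne_zero 2 hP0), natDegree_pow]
    have := nP hP0
    omega
  · refine key _ fun h0 => ?_
    have hV0 : V ≠ 0 := by rintro rfl; simp at h0
    have hP0 : P ≠ 0 := by rintro rfl; simp at h0
    have hR0 : R ≠ 0 := by rintro rfl; simp at h0
    have e1 : (2 * (V * (P * R))).natDegree ≤ V.natDegree + (P.natDegree + R.natDegree) := by
      have e2 : (2 : F[X]) = C 2 := (map_ofNat C 2).symm
      rw [e2]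
      refine (natDegree_C_mul_le _ _).trans ?_
      rw [natDegree_mul hV0 (mul_ne_zero hP0 hR0), natDegree_mul hP0 hR0]
    have := nP hP0
    have := nR hR0
    have := h.natDegree_V hV0
    omega
  · refine key _ fun h0 => ?_
    have hW0 : W ≠ 0 := by rintro rfl; simp at h0
    have hR0 : R ≠ 0 := by rintro rfl; simp at h0
    rw [natDegree_mul hW0 (pow_ne_zero 2 hR0), natDegree_pow]
    have := nR hR0
    have := h.natDegree_W
    omega

/-- The vector attached to `P`, `R`. -/
noncomputable def zz (a : Fin (2 * g + 1) → F) (U V : F[X]) :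
    (F[X] × F[X]) →ₗ[F] (Fin (2 * g + 1) → F) where
  toFun p i := open scoped Classical in
    if U.eval (a i) = 0 then p.2.eval (a i) else
      p.1.eval (a i) + V.eval (a i) * p.2.eval (a i) / U.eval (a i)
  map_add' p q := by
    ext i
    simp only [Prod.fst_add, Prod.snd_add, eval_add, Pi.add_apply]
    split_ifs <;> ring
  map_smul' c p := by
    ext i
    simp only [Prod.smul_fst, Prod.smul_snd, eval_smul, Pi.smul_apply, smul_eq_mul,
      RingHom.id_apply]
    split_ifs <;> ring

theorem Mum.al_zz {a : Fin (2 * g + 1) → F} {U V W : F[X]} (h : Mum a U V W) (P R : F[X])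
    (i : Fin (2 * g + 1)) :
    al a U W i * zz a U V (P, R) i ^ 2 = (-1) ^ U.natDegree * (Th U V W P R).eval (a i) := by
  have e : (Th U V W P R).eval (a i) = U.eval (a i) * P.eval (a i) ^ 2 +
      2 * (V.eval (a i) * (P.eval (a i) * R.eval (a i))) + W.eval (a i) * R.eval (a i) ^ 2 := by
    simp [Th]
  rw [e]
  by_cases hi : U.eval (a i) = 0
  · have hV := h.eval_V hi
    simp only [al, zz, LinearMap.coe_mk, AddHom.coe_mk, if_pos hi]
    rw [hi, hV]
    ring
  · simp only [al, zz, LinearMap.coe_mk, AddHom.coe_mk, if_neg hi]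
    have h1 := h.eval_sq i
    field_simp
    linear_combination (R.eval (a i) ^ 2) * h1

/-- **The isotropic subspace of a Mumford triple.** -/
theorem Mum.exists_isot {a : Fin (2 * g + 1) → F} (ha : Function.Injective a) {U V W : F[X]}
    (h : Mum a U V W) : ∃ X : Submodule F (Fin (2 * g + 1) → F),
      Isot (fun i => al a U W i / dd a i) X ∧ g ≤ finrank F X := by
  have hm := h.deg
  set p := (2 * g + 1 - U.natDegree) / 2 with hp
  set r := U.natDegree / 2 with hr
  have hpr : p + r = g := by omega
  let ep := (degreeLTEquiv F p).symm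
  let er := (degreeLTEquiv F r).symm
  let L : ((Fin p → F) × (Fin r → F)) →ₗ[F] (Fin (2 * g + 1) → F) :=
    (zz a U V).comp (LinearMap.prodMap ((degreeLT F p).subtype.comp ep.toLinearMap)
      ((degreeLT F r).subtype.comp er.toLinearMap))
  have hL : ∀ u, L u = zz a U V ((ep u.1 : F[X]), (er u.2 : F[X])) := fun u => rfl
  have dP : ∀ u, ((ep u : F[X])).degree < (p : ℕ) := fun u => mem_degreeLT.mp (ep u).2
  have dR : ∀ u, ((er u : F[X])).degree < (r : ℕ) := fun u => mem_degreeLT.mp (er u).2
  refine ⟨LinearMap.range L, ?_, ?_⟩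
  · rintro z ⟨u, rfl⟩
    set P : F[X] := (ep u.1 : F[X]) with hPdef
    set R : F[X] := (er u.2 : F[X]) with hRdef
    have hdeg := h.degree_Th (dP u.1) (dR u.2)
    have hc := Lagrange.coeff_eq_sum (s := Finset.univ) (v := a) ha.injOn
      (P := Th U V W P R) (by
        refine hdeg.trans_le ?_
        rw [Finset.card_univ, Fintype.card_fin]
        exact_mod_cast (by omega : 2 * g ≤ 2 * g + 1))
    rw [Finset.card_univ, Fintype.card_fin, Nat.add_sub_cancel,
      coeff_eq_zero_of_degree_lt hdeg] at hc
    have e : ∀ i, al a U W i / dd a i * L u i ^ 2 =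
        (-1) ^ U.natDegree * ((Th U V W P R).eval (a i) / dd a i) := by
      intro i
      have h1 := h.al_zz P R i
      rw [hL, div_mul_eq_mul_div, h1, mul_div_assoc]
    rw [Finset.sum_congr rfl fun i _ => e i, ← Finset.mul_sum]
    have e2 : ∑ i, (Th U V W P R).eval (a i) / dd a i = 0 := hc.symm
    rw [e2, mul_zero]
  · have inj : Function.Injective L := by
      rw [← LinearMap.ker_eq_bot, LinearMap.ker_eq_bot']
      intro u hu
      set P : F[X] := (ep u.1 : F[X]) with hPdef
      set R : F[X] := (er u.2 : F[X]) with hRdef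
      have hdeg := h.degree_Th (dP u.1) (dR u.2)
      have hz : ∀ i, (Th U V W P R).eval (a i) = 0 := by
        intro i
        have h1 := h.al_zz P R i
        have h3 : zz a U V (P, R) i = 0 := by rw [← hL, hu]; rfl
        rw [h3] at h1
        have h4 : ((-1 : F)) ^ U.natDegree ≠ 0 := pow_ne_zero _ (neg_ne_zero.mpr one_ne_zero)
        have h5 : (-1) ^ U.natDegree * (Th U V W P R).eval (a i) = 0 := by
          rw [← h1]; ring
        exact (mul_eq_zero.mp h5).resolve_left h4
      have hTh : Th U V W P R = 0 := by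
        refine eq_zero_of_degree_lt_of_eval_index_eq_zero (s := Finset.univ) (v := a) ha.injOn ?_
          fun i _ => hz i
        refine hdeg.trans_le ?_
        rw [Finset.card_univ, Fintype.card_fin]
        exact_mod_cast (by omega : 2 * g ≤ 2 * g + 1)
      have h1 : (U * P + V * R) ^ 2 = ff a * R ^ 2 := by
        have h3 : U * Th U V W P R = 0 := by rw [hTh, mul_zero]
        rw [Th] at h3
        linear_combination h3 + R ^ 2 * h.eq
      have hR0 : R = 0 := by
        by_contra hR
        have h3 := congrArg natDegree h1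
        rw [natDegree_pow, natDegree_mul (ff_ne_zero a) (pow_ne_zero 2 hR), natDegree_ff,
          natDegree_pow] at h3
        omega
      have hP0 : P = 0 := by
        rw [hR0, mul_zero, add_zero] at h1
        have h3 : (U * P) ^ 2 = 0 := by rw [h1]; ring
        have h4 := pow_eq_zero_iff two_ne_zero |>.mp h3
        exact (mul_eq_zero.mp h4).resolve_left h.monic.ne_zero
      have h3 : ep u.1 = 0 := Subtype.ext hP0
      have h4 : er u.2 = 0 := Subtype.ext hR0
      exact Prod.ext ((LinearEquiv.map_eq_zero_iff _).mp h3) ((LinearEquiv.map_eq_zero_iff _).mp h4)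
    rw [LinearMap.finrank_range_of_inj inj, Module.finrank_prod, Module.finrank_fin_fun,
      Module.finrank_fin_fun, hpr]

end Pool.Agent.SmJ.E4
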