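import Pool.Agent.Lib.SmJ.E4.LocF
import Pool.Agent.Lib.SmJ.E.KF

/-!
SMITH for Jacobians (MP_950c68_ag), part E4: isotropy of the local Kummer group, in terms of classes
`Q` of the Jacobian with `σ Q = Q + ∑ i, x i • ee a i` for `σ = s, φ`.
-/

set_option autoImplicit false
set_option linter.unusedSectionVars false

open Polynomial Module

namespace Pool.Agent.SmJ.E4

open Pool.Agent.Lib.SmD Pool.Agent.SmithE

variable {K Om : Type} [Field K] [Field Om] [Algebra K Om]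

theorem sum_val {n : ℕ} {M : Type} [AddCommGroup M] (c : Fin n → ZMod 2) (e : Fin n → M) :
    ∑ i, (c i).val • e i = ∑ i ∈ Finset.univ.filter (fun i => c i = 1), e i := by
  rw [Finset.sum_filter]
  refine Finset.sum_congr rfl fun i _ => ?_
  rcases zcases (c i) with h | h
  · rw [h]
    simp
  · rw [h, if_pos rfl]
    exact one_smul ℕ _

theorem even_card {n : ℕ} (c : Fin n → ZMod 2) (h : ∑ i, c i = 0) :
    Even (Finset.univ.filter (fun i => c i = 1)).card := by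
  have h1 : ∑ i, c i = ((Finset.univ.filter (fun i => c i = 1)).card : ZMod 2) := by
    rw [Finset.card_filter, Nat.cast_sum]
    refine Finset.sum_congr rfl fun i _ => ?_
    rcases zcases (c i) with h | h
    · rw [h]
      simp
    · rw [h, if_pos rfl]
      simp
  rw [h] at h1
  exact (ZMod.natCast_eq_zero_iff_even).mp h1.symm

variable [Infinite K] {g : ℕ} {a : Fin (2 * g + 1) → Om} [HypA a]

/-- The pair of sign vectors of a class `Q` with `2 Q` given by a Mumford triple fixed by `s`, `φ`. -/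
theorem mumD_of_pair {s φ : Om ≃ₐ[K] Om} (has : ∀ i, s (a i) = a i) (haφ : ∀ i, φ (a i) = a i)
    {U V W : Om[X]} (hM : Mum a U V W) (u1 : U.map (s : Om →+* Om) = U)
    (u2 : U.map (φ : Om →+* Om) = U) (v1 : V.map (s : Om →+* Om) = V)
    (v2 : V.map (φ : Om →+* Om) = V) {Q : JJ (ff a)} (h2 : mcl (ff a) U V = 2 • Q)
    {x : Fin (2 * g + 1) → ZMod 2 × ZMod 2} (hx : ∑ i, x i = 0)
    (h1 : act (s : Om ≃+* Om) (map_ff _ has) Q = Q + ∑ i, ((x i).1).val • ee a i)
    (h3 : act (φ : Om ≃+* Om) (map_ff _ haφ) Q = Q + ∑ i, ((x i).2).val • ee a i) :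
    MumD s φ a x := by
  have hT : {τ : Om | ∀ σ ∈ ({(s : Om ≃+* Om), (φ : Om ≃+* Om)} : Set (Om ≃+* Om)),
      σ τ = τ}.Infinite := by
    refine Set.Infinite.mono ?_ (Set.infinite_range_of_injective (algebraMap K Om).injective)
    rintro τ ⟨c, rfl⟩ σ hσ
    rcases hσ with rfl | rfl
    · exact s.commutes c
    · exact φ.commutes c
  obtain ⟨ρ, hρ, hρ'⟩ := kform hM.monic hM.lt hM.deg hM.eq h2 hT (by
    rintro σ (rfl | rfl)
    · exact u1
    · exact u2) (by
    rintro σ (rfl | rfl)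
    · exact v1
    · exact v2)
  have hx1 : ∑ i, (x i).1 = 0 := by
    have := congrArg Prod.fst hx
    rwa [Prod.fst_sum] at this
  have hx2 : ∑ i, (x i).2 = 0 := by
    have := congrArg Prod.snd hx
    rwa [Prod.snd_sum] at this
  rw [sum_val] at h1 h3
  have k1 := hρ' _ (by simp) (map_ff _ has) id has _ (even_card _ hx1) h1
  have k2 := hρ' _ (by simp) (map_ff _ haφ) id haφ _ (even_card _ hx2) h3
  refine ⟨U, V, W, hM, u1, u2, v1, v2, fun i => ⟨ρ i, hρ i, ?_, ?_⟩⟩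
  · rcases zcases (x i).1 with h | h
    · rw [h, Sg_zero]
      exact (k1 i).1 (by simp [h])
    · rw [h, Sg_one]
      exact (k1 i).2 (by simp [h])
  · rcases zcases (x i).2 with h | h
    · rw [h, Sg_zero]
      exact (k2 i).1 (by simp [h])
    · rw [h, Sg_one]
      exact (k2 i).2 (by simp [h])

/-- `s` and `φ` fixed classes are given by fixed Mumford triples. -/
def FixPair (s φ : Om ≃ₐ[K] Om) (a : Fin (2 * g + 1) → Om) [HypA a] : Prop :=
  ∀ (hs : ∀ i, s (a i) = a i) (hφ : ∀ i, φ (a i) = a i) (C : JJ (ff a)),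
    act (s : Om ≃+* Om) (map_ff _ hs) C = C → act (φ : Om ≃+* Om) (map_ff _ hφ) C = C →
    ∃ U V W : Om[X], Mum a U V W ∧ U.map (s : Om →+* Om) = U ∧ U.map (φ : Om →+* Om) = U ∧
      V.map (s : Om →+* Om) = V ∧ V.map (φ : Om →+* Om) = V ∧ mcl (ff a) U V = C

theorem two_ee (i : Fin (2 * g + 1)) : 2 • ee a i = 0 := by
  have h := cls_PS_add_self (a := a) {i}
  rw [cls_PS, Finset.sum_singleton] at h
  rw [two_nsmul]
  exact h

theorem add_val_ee (c d : ZMod 2) (i : Fin (2 * g + 1)) :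
    (c + d).val • ee a i = c.val • ee a i + d.val • ee a i := by
  have h := two_ee (a := a) i
  rw [two_nsmul] at h
  rcases zcases c with rfl | rfl <;> rcases zcases d with rfl | rfl
  · simp
  · simp
  · simp
  · have e : ((1 : ZMod 2) + 1).val = 0 := rfl
    have e1 : (1 : ZMod 2).val = 1 := rfl
    rw [e, e1, zero_smul, one_smul, h]

theorem mumD_of_cls {s φ : Om ≃ₐ[K] Om} (has : ∀ i, s (a i) = a i) (haφ : ∀ i, φ (a i) = a i)
    (hF : FixPair s φ a) {Q : JJ (ff a)} {x : Fin (2 * g + 1) → ZMod 2 × ZMod 2}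
    (hx : ∑ i, x i = 0)
    (h1 : act (s : Om ≃+* Om) (map_ff _ has) Q = Q + ∑ i, ((x i).1).val • ee a i)
    (h3 : act (φ : Om ≃+* Om) (map_ff _ haφ) Q = Q + ∑ i, ((x i).2).val • ee a i) :
    MumD s φ a x := by
  have key : ∀ c : Fin (2 * g + 1) → ZMod 2, 2 • ∑ i, (c i).val • ee a i = 0 := by
    intro c
    rw [Finset.smul_sum]
    refine Finset.sum_eq_zero fun i _ => ?_
    rw [smul_comm, two_ee, smul_zero]
  obtain ⟨U, V, W, hM, u1, u2, v1, v2, h2⟩ := hF has haφ (2 • Q) (by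
    rw [map_nsmul, h1, smul_add, key, add_zero]) (by
    rw [map_nsmul, h3, smul_add, key, add_zero])
  exact mumD_of_pair has haφ hM u1 u2 v1 v2 h2 hx h1 h3

variable [IsSepClosed Om] {w : ValuationSubring Om}

/-- **Isotropy.** -/
theorem isot_cls (hv2 : w.valuation 2 = 1) {s φ : Om ≃ₐ[K] Om} (hs : s ∈ iner K w)
    (hφ : IsFrob K w φ) {m : ℕ} (hq : resCard (below K w) = 2 * m + 1)
    (has : ∀ i, s (a i) = a i) (haφ : ∀ i, φ (a i) = a i) (hF : FixPair s φ a)
    {Q Q' : JJ (ff a)} {x y : Fin (2 * g + 1) → ZMod 2 × ZMod 2} (hx : ∑ i, x i = 0)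
    (hy : ∑ i, y i = 0)
    (h1 : act (s : Om ≃+* Om) (map_ff _ has) Q = Q + ∑ i, ((x i).1).val • ee a i)
    (h2 : act (φ : Om ≃+* Om) (map_ff _ haφ) Q = Q + ∑ i, ((x i).2).val • ee a i)
    (h3 : act (s : Om ≃+* Om) (map_ff _ has) Q' = Q' + ∑ i, ((y i).1).val • ee a i)
    (h4 : act (φ : Om ≃+* Om) (map_ff _ haφ) Q' = Q' + ∑ i, ((y i).2).val • ee a i) :
    ∑ i, brk (m : ZMod 2) (x i) (y i) = 0 := by
  refine isot_local hv2 hs hφ hq (HypA.inj (a := a)) has haφ (mumD_of_cls has haφ hF hx h1 h2)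
    (mumD_of_cls has haφ hF hy h3 h4) (mumD_of_cls has haφ hF (Q := Q + Q') ?_ ?_ ?_) hx hy
  · change ∑ i, (x i + y i) = 0
    rw [Finset.sum_add_distrib, hx, hy, add_zero]
  · rw [map_add, h1, h3]
    simp only [Pi.add_apply, Prod.fst_add, add_val_ee, Finset.sum_add_distrib]
    abel
  · rw [map_add, h2, h4]
    simp only [Pi.add_apply, Prod.snd_add, add_val_ee, Finset.sum_add_distrib]
    abel

/-- **The quadratic form.** -/
theorem quad_cls (hv2 : w.valuation 2 = 1) {s φ : Om ≃ₐ[K] Om} (hs : s ∈ iner K w)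
    (hφ : IsFrob K w φ) {m : ℕ} (hq : resCard (below K w) = 2 * m + 1)
    (has : ∀ i, s (a i) = a i) (haφ : ∀ i, φ (a i) = a i) (hF : FixPair s φ a)
    {Q : JJ (ff a)} {x δ : Fin (2 * g + 1) → ZMod 2 × ZMod 2} (hx : ∑ i, x i = 0)
    (h1 : act (s : Om ≃+* Om) (map_ff _ has) Q = Q + ∑ i, ((x i).1).val • ee a i)
    (h2 : act (φ : Om ≃+* Om) (map_ff _ haφ) Q = Q + ∑ i, ((x i).2).val • ee a i)
    (hδ : ∀ i, ∃ r : Om, r ^ 2 = dd a i ∧ Sg s r (δ i).1 ∧ Sg φ r (δ i).2) :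
    E4.hs (m : ZMod 2) x + ∑ i, brk (m : ZMod 2) (δ i) (x i) = 0 :=
  quad_local hv2 hs hφ hq (HypA.inj (a := a)) has haφ (mumD_of_cls has haφ hF hx h1 h2) hx hδ

end Pool.Agent.SmJ.E4
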