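import Pool.Agent.Lib.SmJ.E4.Hs

/-!
SMITH for Jacobians (MP_950c68_ag), part E4: the Hasse sum of a diagonal form of rank `2 g + 1` with
a totally isotropic subspace of dimension `g` depends only on the determinant (Witt's chain
argument; only the Steinberg relation is used).
-/

set_option autoImplicit false
set_option linter.unusedSectionVars false
set_option linter.unusedSimpArgs false

open Module

namespace Pool.Agent.SmJ.E4

/-- An abstract Steinberg symbol on a field: `sg x` is the square class of `x`. -/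
structure Stb {F : Type} [Field F] (ep : ZMod 2) (sg : F → ZMod 2 × ZMod 2) : Prop where
  mul : ∀ x y, x ≠ 0 → y ≠ 0 → sg (x * y) = sg x + sg y
  st : ∀ x y, x ≠ 0 → y ≠ 0 → x + y = 1 → brk ep (sg x) (sg y) = 0

namespace Stb

variable {F : Type} [Field F] {ep : ZMod 2} {sg : F → ZMod 2 × ZMod 2} (h : Stb ep sg)

include h

theorem one : sg 1 = 0 := by
  have h1 := h.mul 1 1 one_ne_zero one_ne_zero
  rw [mul_one, add_self2] at h1
  exact h1

theorem sq (x : F) (hx : x ≠ 0) : sg (x ^ 2) = 0 := by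
  rw [pow_two, h.mul x x hx hx, add_self2]

theorem inv (x : F) (hx : x ≠ 0) : sg x⁻¹ = sg x := by
  have h1 := h.mul x x⁻¹ hx (inv_ne_zero hx)
  rw [mul_inv_cancel₀ hx, h.one] at h1
  have h2 : sg x + (sg x + sg x⁻¹) = sg x := by rw [← h1, add_zero]
  rw [← add_assoc, add_self2, zero_add] at h2
  exact h2

theorem div (x y : F) (hx : x ≠ 0) (hy : y ≠ 0) : sg (x / y) = sg x + sg y := by
  rw [div_eq_mul_inv, h.mul x y⁻¹ hx (inv_ne_zero hy), h.inv y hy]

theorem mul_sq (x y : F) (hx : x ≠ 0) (hy : y ≠ 0) : sg (x * y ^ 2) = sg x := by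
  rw [h.mul _ _ hx (pow_ne_zero 2 hy), h.sq y hy, add_zero]

theorem neg_self (x : F) (hx : x ≠ 0) : brk ep (sg x) (sg (-x)) = 0 := by
  by_cases h1 : x = 1
  · rw [h1, h.one, brk_zero_left]
  · have a1 : 1 - x ≠ 0 := sub_ne_zero.mpr (Ne.symm h1)
    have a2 : x⁻¹ ≠ 1 := fun h2 => h1 (inv_eq_one.mp h2)
    have a3 : 1 - x⁻¹ ≠ 0 := sub_ne_zero.mpr (Ne.symm a2)
    have e : -x = (1 - x) / (1 - x⁻¹) := by
      rw [eq_div_iff a3]
      have := mul_inv_cancel₀ hx
      linear_combination this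
    have b1 := h.st x (1 - x) hx a1 (by ring)
    have b2 := h.st x⁻¹ (1 - x⁻¹) (inv_ne_zero hx) a3 (by ring)
    rw [h.inv x hx] at b2
    rw [e, h.div _ _ a1 a3, brk_add_right, b1, b2, add_zero]

/-- `<a, b> = <e, a b e>` for `e = a x ^ 2 + b y ^ 2`. -/
theorem move {a b x y : F} (ha : a ≠ 0) (hb : b ≠ 0) (hx : x ≠ 0) (hy : y ≠ 0)
    (he : a * x ^ 2 + b * y ^ 2 ≠ 0) :
    brk ep (sg (a * x ^ 2 + b * y ^ 2)) (sg (a * b * (a * x ^ 2 + b * y ^ 2))) =
      brk ep (sg a) (sg b) := by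
  set e := a * x ^ 2 + b * y ^ 2 with hedef
  have a1 : a * x ^ 2 ≠ 0 := mul_ne_zero ha (pow_ne_zero 2 hx)
  have a2 : b * y ^ 2 ≠ 0 := mul_ne_zero hb (pow_ne_zero 2 hy)
  have h1 := h.st (a * x ^ 2 / e) (b * y ^ 2 / e) (div_ne_zero a1 he) (div_ne_zero a2 he)
    (by rw [← add_div, div_self he])
  rw [h.div _ _ a1 he, h.div _ _ a2 he, h.mul_sq a x ha hx, h.mul_sq b y hb hy] at h1
  rw [h.mul _ _ (mul_ne_zero ha hb) he, h.mul _ _ ha hb]
  generalize sg a = A at *
  generalize sg b = B at *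
  generalize sg e = E at *
  clear * - h1
  obtain ⟨A1, A2⟩ := A
  obtain ⟨B1, B2⟩ := B
  obtain ⟨E1, E2⟩ := E
  revert h1
  revert A1 A2 B1 B2 E1 E2 ep
  decide

end Stb

section form

variable {F : Type} [Field F] {ι : Type} [Fintype ι]

/-- The diagonal form `<b i>` vanishes on `X`. -/
def Isot (b : ι → F) (X : Submodule F (ι → F)) : Prop := ∀ z ∈ X, ∑ i, b i * z i ^ 2 = 0

theorem Isot.polar (h2 : (2 : F) ≠ 0) {b : ι → F} {X : Submodule F (ι → F)} (h : Isot b X)
    {z w : ι → F} (hz : z ∈ X) (hw : w ∈ X) : ∑ i, b i * (z i * w i) = 0 := by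
  have h1 := h (z + w) (X.add_mem hz hw)
  have h3 := h z hz
  have h4 := h w hw
  have e : ∑ i, b i * (z + w) i ^ 2 = ∑ i, b i * z i ^ 2 + ∑ i, b i * w i ^ 2 +
      2 * ∑ i, b i * (z i * w i) := by
    rw [Finset.mul_sum, ← Finset.sum_add_distrib, ← Finset.sum_add_distrib]
    refine Finset.sum_congr rfl fun i _ => ?_
    rw [Pi.add_apply]
    ring
  rw [e, h3, h4, zero_add, zero_add] at h1
  exact (mul_eq_zero.mp h1).resolve_left h2

variable [DecidableEq ι]

/-- The change of coordinates in the plane `i, j`. -/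
noncomputable def chg (b : ι → F) (x : ι → F) (i j : ι) : (ι → F) →ₗ[F] (ι → F) where
  toFun z := Function.update (Function.update z i
    ((b i * x i * z i + b j * x j * z j) / (b i * x i ^ 2 + b j * x j ^ 2))) j
    ((x j * z i - x i * z j) / (b i * x i ^ 2 + b j * x j ^ 2))
  map_add' z w := by
    ext k
    simp only [Function.update_apply, Pi.add_apply]
    split_ifs <;> ring
  map_smul' c z := by
    ext k
    simp only [Function.update_apply, Pi.smul_apply, smul_eq_mul, RingHom.id_apply]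
    split_ifs <;> ring

theorem chg_j (b x : ι → F) (i j : ι) (z : ι → F) :
    chg b x i j z j = (x j * z i - x i * z j) / (b i * x i ^ 2 + b j * x j ^ 2) := by
  simp [chg]

theorem chg_i (b x : ι → F) {i j : ι} (hij : i ≠ j) (z : ι → F) :
    chg b x i j z i = (b i * x i * z i + b j * x j * z j) / (b i * x i ^ 2 + b j * x j ^ 2) := by
  simp [chg, Function.update_apply, hij]

theorem chg_k (b x : ι → F) {i j k : ι} (hi : k ≠ i) (hj : k ≠ j) (z : ι → F) :
    chg b x i j z k = z k := by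
  simp [chg, Function.update_apply, hi, hj]

theorem chg_inj {b x : ι → F} {i j : ι} (hij : i ≠ j) (he : b i * x i ^ 2 + b j * x j ^ 2 ≠ 0) :
    Function.Injective (chg b x i j) := by
  rw [← LinearMap.ker_eq_bot, LinearMap.ker_eq_bot']
  intro z hz
  have h1 := congrFun hz i
  have h2 := congrFun hz j
  rw [chg_i b x hij, Pi.zero_apply, div_eq_zero_iff, or_iff_left he] at h1
  rw [chg_j, Pi.zero_apply, div_eq_zero_iff, or_iff_left he] at h2
  have h3 : (b i * x i ^ 2 + b j * x j ^ 2) * z i = 0 := by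
    linear_combination x i * h1 + b j * x j * h2
  have h4 : (b i * x i ^ 2 + b j * x j ^ 2) * z j = 0 := by
    linear_combination x j * h1 - b i * x i * h2
  have h5 := (mul_eq_zero.mp h3).resolve_left he
  have h6 := (mul_eq_zero.mp h4).resolve_left he
  ext k
  by_cases hki : k = i
  · rw [hki, h5]; rfl
  · by_cases hkj : k = j
    · rw [hkj, h6]; rfl
    · rw [← chg_k b x hki hkj z, hz]

/-- The new coefficients. -/
noncomputable def bch (b x : ι → F) (i j : ι) : ι → F :=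
  Function.update (Function.update b i (b i * x i ^ 2 + b j * x j ^ 2)) j
    (b i * b j * (b i * x i ^ 2 + b j * x j ^ 2))

theorem bch_j (b x : ι → F) (i j : ι) :
    bch b x i j j = b i * b j * (b i * x i ^ 2 + b j * x j ^ 2) := by
  simp [bch]

theorem bch_i (b x : ι → F) {i j : ι} (hij : i ≠ j) :
    bch b x i j i = b i * x i ^ 2 + b j * x j ^ 2 := by
  simp [bch, Function.update_apply, hij]

theorem bch_k (b x : ι → F) {i j k : ι} (hi : k ≠ i) (hj : k ≠ j) : bch b x i j k = b k := by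
  simp [bch, Function.update_apply, hi, hj]

theorem bch_form {b x : ι → F} {i j : ι} (hij : i ≠ j)
    (he : b i * x i ^ 2 + b j * x j ^ 2 ≠ 0) (z : ι → F) :
    ∑ k, bch b x i j k * chg b x i j z k ^ 2 = ∑ k, b k * z k ^ 2 := by
  rw [sum_two _ hij, sum_two (fun k => b k * z k ^ 2) hij]
  congr 1
  · rw [bch_i b x hij, bch_j, chg_i b x hij, chg_j]
    field_simp
    ring
  · refine Finset.sum_congr rfl fun k _ => ?_
    rw [bch_k b x k.2.1 k.2.2, chg_k b x k.2.1 k.2.2]

theorem bch_ne {b x : ι → F} (hb : ∀ k, b k ≠ 0) {i j : ι} (hij : i ≠ j)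
    (he : b i * x i ^ 2 + b j * x j ^ 2 ≠ 0) (k : ι) : bch b x i j k ≠ 0 := by
  by_cases hkj : k = j
  · rw [hkj, bch_j]
    exact mul_ne_zero (mul_ne_zero (hb i) (hb j)) he
  · by_cases hki : k = i
    · rw [hki, bch_i b x hij]
      exact he
    · rw [bch_k b x hki hkj]
      exact hb k

variable {ep : ZMod 2} {sg : F → ZMod 2 × ZMod 2}

theorem sum_bch (hs' : Stb ep sg) {b x : ι → F} (hb : ∀ k, b k ≠ 0) {i j : ι} (hij : i ≠ j)
    (he : b i * x i ^ 2 + b j * x j ^ 2 ≠ 0) :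
    sg (bch b x i j i) + sg (bch b x i j j) = sg (b i) + sg (b j) := by
  rw [bch_i b x hij, bch_j, hs'.mul _ _ (mul_ne_zero (hb i) (hb j)) he, hs'.mul _ _ (hb i) (hb j)]
  have := add_self2 (sg (b i * x i ^ 2 + b j * x j ^ 2))
  linear_combination this

theorem hs_bch (hs' : Stb ep sg) {b x : ι → F} (hb : ∀ k, b k ≠ 0) {i j : ι} (hij : i ≠ j)
    (hi : x i ≠ 0) (hj : x j ≠ 0) (he : b i * x i ^ 2 + b j * x j ^ 2 ≠ 0) :
    hs ep (fun k => sg (bch b x i j k)) = hs ep (fun k => sg (b k)) := by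
  rw [hs_split ep _ hij, hs_split ep (fun k => sg (b k)) hij]
  have e1 : (fun k : {k // k ≠ i ∧ k ≠ j} => sg (bch b x i j k)) =
      fun k : {k // k ≠ i ∧ k ≠ j} => sg (b k) := by
    ext1 k
    rw [bch_k b x k.2.1 k.2.2]
  rw [sum_bch hs' hb hij he]
  simp only [e1]
  rw [bch_i b x hij, bch_j, hs'.move (hb i) (hb j) hi hj he]

end form

end Pool.Agent.SmJ.E4
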