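import Pool.Agent.Lib.SmJ.E4.Witt

/-!
SMITH for Jacobians (MP_950c68_ag), part E4: the theorem of Witt type.
-/

set_option autoImplicit false

open Module

namespace Pool.Agent.SmJ.E4

variable {F : Type} [Field F] {ep : ZMod 2} {sg : F → ZMod 2 × ZMod 2}

open scoped Classical in
/-- After a chain of changes in planes some isotropic vector has exactly two nonzero entries. -/
theorem exists_pair (h2 : (2 : F) ≠ 0) (hS : Stb ep sg) {ι : Type} [Fintype ι] [DecidableEq ι]
    (n : ℕ) : ∀ (b : ι → F) (X : Submodule F (ι → F)) (x : ι → F), (∀ k, b k ≠ 0) → Isot b X →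
    x ∈ X → x ≠ 0 → ((Finset.univ.filter fun k => x k ≠ 0).card = n) →
    ∃ (i j : ι) (b' : ι → F) (X' : Submodule F (ι → F)) (x' : ι → F), i ≠ j ∧ (∀ k, b' k ≠ 0) ∧
      Isot b' X' ∧ finrank F X' = finrank F X ∧
      hs ep (fun k => sg (b' k)) = hs ep (fun k => sg (b k)) ∧
      ∑ k, sg (b' k) = ∑ k, sg (b k) ∧ x' ∈ X' ∧ x' i ≠ 0 ∧ x' j ≠ 0 ∧
      ∀ k, k ≠ i → k ≠ j → x' k = 0 := by
  induction n using Nat.strong_induction_on with
  | _ n ih =>
  intro b X x hb hX hx hx0 hn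
  obtain ⟨i, hi⟩ : ∃ i, x i ≠ 0 := by
    by_contra hc
    push Not at hc
    exact hx0 (funext hc)
  -- a second index
  obtain ⟨j, hji, hj⟩ : ∃ j, j ≠ i ∧ x j ≠ 0 := by
    by_contra hc
    push Not at hc
    have h1 := hX x hx
    rw [Finset.sum_eq_single i (fun k _ hk => by rw [hc k hk]; ring)
      (fun h => absurd (Finset.mem_univ i) h)] at h1
    exact mul_ne_zero (hb i) (pow_ne_zero 2 hi) h1
  -- the move
  have step : ∀ p q : ι, p ≠ q → x p ≠ 0 → x q ≠ 0 → b p * x p ^ 2 + b q * x q ^ 2 ≠ 0 →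
      ∃ (i j : ι) (b' : ι → F) (X' : Submodule F (ι → F)) (x' : ι → F), i ≠ j ∧
      (∀ k, b' k ≠ 0) ∧ Isot b' X' ∧ finrank F X' = finrank F X ∧
      hs ep (fun k => sg (b' k)) = hs ep (fun k => sg (b k)) ∧
      ∑ k, sg (b' k) = ∑ k, sg (b k) ∧ x' ∈ X' ∧ x' i ≠ 0 ∧ x' j ≠ 0 ∧
      ∀ k, k ≠ i → k ≠ j → x' k = 0 := by
    intro p q hpq hp hq he
    have inj := chg_inj hpq he
    have m1 : chg b x p q x ∈ X.map (chg b x p q) := Submodule.mem_map_of_mem hx
    have m2 : chg b x p q x ≠ 0 := fun h => hx0 (inj (by rw [h, map_zero]))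
    have s1 : ∀ k, k ≠ q → x k = 0 → chg b x p q x k = 0 := by
      intro k hk hk0
      have hkp : k ≠ p := fun h => hp (by rw [← h]; exact hk0)
      rw [chg_k b x hkp hk, hk0]
    have s2 : chg b x p q x q = 0 := by
      rw [chg_j]
      have : x q * x p - x p * x q = 0 := by ring
      rw [this, zero_div]
    have m3 : (Finset.univ.filter fun k => chg b x p q x k ≠ 0).card < n := by
      rw [← hn]
      refine Finset.card_lt_card ⟨?_, ?_⟩
      · intro k hk
        rw [Finset.mem_filter] at hk ⊢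
        refine ⟨Finset.mem_univ k, fun h0 => hk.2 ?_⟩
        by_cases hkq : k = q
        · rw [hkq]; exact s2
        · exact s1 k hkq h0
      · intro hsub
        have h3 : q ∈ Finset.univ.filter fun k => x k ≠ 0 := by
          rw [Finset.mem_filter]
          exact ⟨Finset.mem_univ q, hq⟩
        have h4 := hsub h3
        rw [Finset.mem_filter] at h4
        exact h4.2 s2
    obtain ⟨i, j, b', X', x', r1, r2, r3, r4, r5, r6, r7⟩ := ih _ m3 (bch b x p q)
      (X.map (chg b x p q)) (chg b x p q x) (bch_ne hb hpq he) (by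
        rintro z ⟨w, hw, rfl⟩
        rw [bch_form hpq he]
        exact hX w hw) m1 m2 rfl
    refine ⟨i, j, b', X', x', r1, r2, r3, ?_, ?_, ?_, r7⟩
    · rw [r4]
      exact (Submodule.equivMapOfInjective _ inj X).finrank_eq.symm
    · rw [r5]
      exact hs_bch hS hb hpq hp hq he
    · rw [r6, sum_two _ hpq, sum_two (fun k => sg (b k)) hpq, sum_bch hS hb hpq he]
      congr 1
      exact Finset.sum_congr rfl fun k _ => by rw [bch_k b x k.2.1 k.2.2]
  by_cases h3 : ∃ k, k ≠ i ∧ k ≠ j ∧ x k ≠ 0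
  · obtain ⟨k, hki, hkj, hk⟩ := h3
    by_cases e1 : b i * x i ^ 2 + b j * x j ^ 2 = 0
    · by_cases e2 : b j * x j ^ 2 + b k * x k ^ 2 = 0
      · refine step i k (Ne.symm hki) hi hk fun e3 => ?_
        have : 2 * (b i * x i ^ 2) = 0 := by linear_combination e1 + e3 - e2
        rcases mul_eq_zero.mp this with h | h
        · exact h2 h
        · exact mul_ne_zero (hb i) (pow_ne_zero 2 hi) h
      · exact step j k (Ne.symm hkj) hj hk e2
    · exact step i j (Ne.symm hji) hi hj e1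
  · push Not at h3
    exact ⟨i, j, b, X, x, Ne.symm hji, hb, hX, rfl, rfl, rfl, hx, hi, hj, h3⟩

/-- Splitting off a hyperbolic plane. -/
theorem drop_pair (h2 : (2 : F) ≠ 0) (hS : Stb ep sg) {ι : Type} [Fintype ι] [DecidableEq ι]
    {i j : ι} (hij : i ≠ j) {b : ι → F} {X : Submodule F (ι → F)} {x : ι → F}
    (hb : ∀ k, b k ≠ 0) (hX : Isot b X) (hx : x ∈ X) (hi : x i ≠ 0) (hj : x j ≠ 0)
    (h0 : ∀ k, k ≠ i → k ≠ j → x k = 0) :
    sg (b i) + sg (b j) = sg (-1) ∧ brk ep (sg (b i)) (sg (b j)) = 0 ∧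
    ∃ X' : Submodule F ({k : ι // k ≠ i ∧ k ≠ j} → F),
      Isot (fun k : {k : ι // k ≠ i ∧ k ≠ j} => b k) X' ∧ finrank F X ≤ finrank F X' + 1 := by
  have q0 : b i * x i ^ 2 + b j * x j ^ 2 = 0 := by
    have h1 := hX x hx
    rw [sum_two _ hij] at h1
    have e : ∑ k : {k : ι // k ≠ i ∧ k ≠ j}, b k * x k ^ 2 = 0 :=
      Finset.sum_eq_zero fun k _ => by rw [h0 k k.2.1 k.2.2]; ring
    rw [e, add_zero] at h1
    exact h1
  have ebj : b j = -b i * (x i / x j) ^ 2 := by
    field_simp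
    linear_combination q0
  have s1 : sg (b j) = sg (-b i) := by
    rw [ebj, hS.mul_sq _ _ (neg_ne_zero.mpr (hb i)) (div_ne_zero hi hj)]
  have s2 : sg (-b i) = sg (-1) + sg (b i) := by
    rw [← hS.mul _ _ (neg_ne_zero.mpr one_ne_zero) (hb i), neg_one_mul]
  refine ⟨?_, ?_, ?_⟩
  · rw [s1, s2]
    have := add_self2 (sg (b i))
    linear_combination this
  · rw [s1]
    exact hS.neg_self _ (hb i)
  -- the members of `X` are proportional to `x` in the plane
  have prop : ∀ z ∈ X, ∃ t, z i = t * x i ∧ z j = t * x j := by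
    intro z hz
    have h1 := hX.polar h2 hz hx
    rw [sum_two _ hij] at h1
    have e : ∑ k : {k : ι // k ≠ i ∧ k ≠ j}, b k * (z k * x k) = 0 :=
      Finset.sum_eq_zero fun k _ => by rw [h0 k k.2.1 k.2.2]; ring
    rw [e, add_zero] at h1
    refine ⟨z i / x i, (div_mul_cancel₀ _ hi).symm, ?_⟩
    have h3 : b j * x j * (z i / x i * x j - z j) = 0 := by
      have e4 : z i / x i * x i = z i := div_mul_cancel₀ _ hi
      linear_combination (z i / x i) * q0 - h1 - b i * x i * e4
    rcases mul_eq_zero.mp h3 with h4 | h4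
    · exact absurd h4 (mul_ne_zero (hb j) hj)
    · exact (sub_eq_zero.mp h4).symm
  let r : (ι → F) →ₗ[F] ({k : ι // k ≠ i ∧ k ≠ j} → F) := LinearMap.funLeft F F Subtype.val
  refine ⟨X.map r, ?_, ?_⟩
  · rintro z ⟨w, hw, rfl⟩
    obtain ⟨t, t1, t2⟩ := prop w hw
    have h1 := hX w hw
    rw [sum_two _ hij, t1, t2] at h1
    have e : b i * (t * x i) ^ 2 + b j * (t * x j) ^ 2 = 0 := by
      linear_combination t ^ 2 * q0
    rw [e, zero_add] at h1
    exact h1
  · have h1 := LinearMap.finrank_range_add_finrank_ker (r.domRestrict X)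
    rw [LinearMap.range_domRestrict] at h1
    have h3 : finrank F (LinearMap.ker (r.domRestrict X)) ≤ 1 := by
      have hxk : (⟨x, hx⟩ : X) ∈ LinearMap.ker (r.domRestrict X) := by
        rw [LinearMap.mem_ker]
        ext k
        exact h0 k k.2.1 k.2.2
      refine finrank_le_one (⟨⟨x, hx⟩, hxk⟩ : LinearMap.ker (r.domRestrict X)) ?_
      rintro ⟨⟨z, hz⟩, hzk⟩
      obtain ⟨t, t1, t2⟩ := prop z hz
      refine ⟨t, ?_⟩
      apply Subtype.ext
      apply Subtype.ext
      funext k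
      change t * x k = z k
      by_cases hki : k = i
      · rw [hki, t1]
      · by_cases hkj : k = j
        · rw [hkj, t2]
        · rw [h0 k hki hkj, mul_zero]
          rw [LinearMap.mem_ker] at hzk
          exact (congrFun hzk ⟨k, hki, hkj⟩).symm
    omega

/-- **The Hasse sum of a form of rank `2 g + 1` with a `g`-dimensional isotropic subspace depends
only on the determinant.** -/
theorem witt (h2 : (2 : F) ≠ 0) (hS : Stb ep sg) (g : ℕ) :
    ∃ c : ZMod 2 × ZMod 2 → ZMod 2, ∀ (ι : Type) [Fintype ι], Fintype.card ι = 2 * g + 1 →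
      ∀ (b : ι → F) (X : Submodule F (ι → F)), (∀ k, b k ≠ 0) → Isot b X → g ≤ finrank F X →
      hs ep (fun k => sg (b k)) = c (∑ k, sg (b k)) := by
  induction g with
  | zero =>
    refine ⟨fun _ => 0, ?_⟩
    intro ι _ hc b X _ _ _
    exact hs_one hc ep _
  | succ g ih =>
    obtain ⟨c, hc⟩ := ih
    refine ⟨fun t => c (t + sg (-1)) + brk ep (sg (-1)) (t + sg (-1)), ?_⟩
    intro ι _ hcard b X hb hX hg
    classical
    have hX0 : X ≠ ⊥ := by
      rintro rfl
      rw [finrank_bot] at hg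
      omega
    obtain ⟨x, hx, hx0⟩ := Submodule.exists_mem_ne_zero_of_ne_bot hX0
    obtain ⟨i, j, b', X', x', r1, r2, r3, r4, r5, r6, r7, r8, r9, r10⟩ :=
      exists_pair h2 hS _ b X x hb hX hx hx0 rfl
    obtain ⟨t1, t2, X'', t3, t4⟩ := drop_pair h2 hS r1 r2 r3 r7 r8 r9 r10
    have hcard' : Fintype.card {k : ι // k ≠ i ∧ k ≠ j} = 2 * g + 1 := by
      have h1 := sum_two (fun _ : ι => (1 : ℕ)) r1
      simp only [Finset.sum_const, Finset.card_univ, smul_eq_mul, mul_one] at h1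
      omega
    have key := hc {k : ι // k ≠ i ∧ k ≠ j} hcard' (fun k => b' k) X'' (fun k => r2 k) t3
      (by omega)
    rw [← r5, ← r6, hs_split ep _ r1, sum_two (fun k => sg (b' k)) r1, t1, t2]
    rw [key]
    have e : sg (-1 : F) + ∑ k : {k : ι // k ≠ i ∧ k ≠ j}, sg (b' k) + sg (-1) =
        ∑ k : {k : ι // k ≠ i ∧ k ≠ j}, sg (b' k) := by
      have := add_self2 (sg (-1 : F))
      linear_combination this
    beta_reduce
    rw [e, add_zero]

end Pool.Agent.SmJ.E4
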